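import Pool.Agent.Y560.TH.Fo
import Pool.Agent.Y560.TF.All
import Pool.Agent.Y576.TH.Tdm
import Pool.Agent.Y259.TH.TDA
import Pool.Agent.Y641.TH.Dec
import Pool.Agent.W889.FO.St0
import Pool.Agent.TH686.DO.Inv2

set_option autoImplicit false

/-!
Vaught's conjecture, perfect-set form, for first-order theories of completely decomposable binary
structures with countably many automorphisms and unary predicates; the conjecture for a dense linear
order with one involution which is not an automorphism is the full conjecture.
-/

namespace Pool.Agent.Results.MP_5df2c5_lc.DecomposableAutomorphisms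

open FirstOrder
open Pool.Agent.TH686.FO (L2 R2)

/-- Vaught's conjecture, perfect-set form, for the theory `T` in the language `L` (the body of the
frozen statement): the models with universe `ℕ` fall into countably many isomorphism classes, or
some continuous family of models, indexed by the Cantor space, consists of pairwise
non-isomorphic models. -/
def Dichotomy (L : FirstOrder.Language.{0, 0}) (T : L.Theory) : Prop :=
  (∃ g : ℕ → L.Structure ℕ, ∀ S : L.Structure ℕ,
      @FirstOrder.Language.Theory.Model L ℕ S T →
        ∃ n : ℕ, Nonempty (@FirstOrder.Language.Equiv L ℕ ℕ S (g n))) ∨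
  (∃ f : (ℕ → Bool) → L.Structure ℕ,
      (∀ x : ℕ → Bool, @FirstOrder.Language.Theory.Model L ℕ (f x) T) ∧
      (∀ x y : ℕ → Bool,
          Nonempty (@FirstOrder.Language.Equiv L ℕ ℕ (f x) (f y)) → x = y) ∧
      (∀ (n : ℕ) (R : L.Relations n) (a : Fin n → ℕ),
          IsClopen {x : ℕ → Bool | @FirstOrder.Language.Structure.RelMap L ℕ (f x) n R a}) ∧
      (∀ (n : ℕ) (F : L.Functions n) (a : Fin n → ℕ) (b : ℕ),
          IsOpen {x : ℕ → Bool | @FirstOrder.Language.Structure.funMap L ℕ (f x) n F a = b}))

/-- Vaught's conjecture for all first-order theories in all countable languages (the frozen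
statement). -/
def FullConjecture : Prop :=
  ∀ L : FirstOrder.Language.{0, 0}, Countable L.Symbols → ∀ T : L.Theory, Dichotomy L T

/-- The interpretation of the binary relation symbol `R`. -/
def Rel {L : FirstOrder.Language.{0, 0}} (S : L.Structure ℕ) (R : L.Relations 2) (u v : ℕ) : Prop :=
  @FirstOrder.Language.Structure.RelMap L ℕ S 2 R ![u, v]

/-- Every symbol in `A` is interpreted by the graph of a permutation that preserves the
interpretations of all the binary relation symbols which are not in `A`. -/
def Automorphisms {L : FirstOrder.Language.{0, 0}} (A : Set (L.Relations 2))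
    (S : L.Structure ℕ) : Prop :=
  ∀ R ∈ A, ∃ π : Equiv.Perm ℕ, (∀ u v, Rel S R u v ↔ π u = v) ∧
    ∀ Q ∉ A, ∀ u v, Rel S Q (π u) (π v) ↔ Rel S Q u v

/-- Every finite set `F` with at least three elements has a proper module with at least two
elements, for the interpretations of the binary relation symbols which are not in `A`: a subset
whose elements are in the same relations with each of the elements of `F` outside it. -/
def Decomposable {L : FirstOrder.Language.{0, 0}} (A : Set (L.Relations 2))
    (S : L.Structure ℕ) : Prop :=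
  ∀ F : Finset ℕ, 3 ≤ F.card → ∃ X ⊆ F, 2 ≤ X.card ∧ X ≠ F ∧
    ∀ u ∈ X, ∀ v ∈ X, ∀ w ∈ F, w ∉ X → ∀ Q ∉ A,
      (Rel S Q u w ↔ Rel S Q v w) ∧ (Rel S Q w u ↔ Rel S Q w v)

/-- Dense linear orders without endpoints on `ℕ` (copies of the order of the rational numbers). -/
structure DenseOrder (r : ℕ → ℕ → Prop) : Prop where
  irrefl : ∀ x, ¬ r x x
  trans : ∀ x y z, r x y → r y z → r x z
  total : ∀ x y, x ≠ y → r x y ∨ r y x
  dense : ∀ x y, r x y → ∃ z, r x z ∧ r z y
  above : ∀ x, ∃ y, r x y
  below : ∀ x, ∃ y, r y x

/-- `r` is a dense linear order without endpoints, and `e` is the graph of an involution without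
fixed points; the elements which are smaller than their partner are below all the elements which
are larger than their partner. -/
structure OrderWithInvolution (r e : ℕ → ℕ → Prop) : Prop where
  order : DenseOrder r
  partner : ∀ x, ∃! y, e x y
  symm : ∀ x y, e x y → e y x
  irrefl : ∀ x, ¬ e x x
  cut : ∀ x x' y y', e x x' → e y y' → r x x' → r y y' → r x y'

open Pool.Agent.TH686.DO Pool.Agent.TH686.FO in
private theorem inv_iff {S : L2.Structure ℕ} :
    OrderWithInvolution (Rel S R2.fst) (Rel S R2.snd) ↔ IW S := by
  constructor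
  · intro h
    exact ⟨⟨h.order.irrefl, h.order.trans, h.order.total⟩, h.order.dense, h.order.above,
      h.order.below, h.symm, h.irrefl, fun u v w h1 h2 => (h.partner u).unique h1 h2,
      fun u => (h.partner u).exists, h.cut⟩
  · intro h
    exact ⟨⟨h.o.irrefl, h.o.trans, h.o.total, h.dn, h.ab, h.be⟩,
      fun x => (h.tot x).elim fun y hy => ⟨y, hy, fun z hz => h.fn x z y hz hy⟩, h.sy, h.ir, h.cut⟩

open Pool.Agent.Y560.TH Pool.Agent.Y560.TH.FO in
private theorem hd_of {L : FirstOrder.Language.{0, 0}} [L.IsRelational] {A : Set (L.Relations 2)}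
    {e : (Σ n, L.Relations n) → ℕ} {x : XB (FreeGroup A)} (hx : Nz A e x)
    (h1 : Automorphisms A (st A e x)) (h2 : Decomposable A (st A e x)) : HD x := by
  have hr : ∀ Q ∉ A, ∀ u v, Rel (st A e x) Q u v ↔ x.1 (e ⟨2, Q⟩) u v = true := by
    intro Q hQ u v
    constructor
    · rintro (⟨h, h'⟩ | ⟨h', h⟩)
      · exact absurd h hQ
      · exact h
    · intro h
      exact Or.inr ⟨hQ, h⟩
  have ha : ∀ (R : A) u v, Rel (st A e x) R.1 u v ↔ x.2.1 (FreeGroup.of R) u = v := by
    intro R u v
    constructor
    · rintro (⟨h', h⟩ | ⟨h, h'⟩)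
      · exact h
      · exact absurd R.2 h
    · intro h
      exact Or.inl ⟨R.2, h⟩
  refine ⟨?_, hx.one, hx.mul, ?_⟩
  · intro F hF
    obtain ⟨X, hX1, hX2, hX3, hX4⟩ := h2 F hF
    refine ⟨X, ⟨hX1, fun u hu v hv w hw hwX i => ?_⟩, hX2, hX3⟩
    by_cases hi : ∃ R, R ∉ A ∧ e ⟨2, R⟩ = i
    · obtain ⟨R, hR, rfl⟩ := hi
      have := hX4 u hu v hv w hw hwX R hR
      simp only [hr R hR] at this
      exact ⟨Bool.eq_iff_iff.2 this.1, Bool.eq_iff_iff.2 this.2⟩
    · simp only [hx.bin i hi, and_self]
  · intro γ i
    refine auto_of hx i (fun R m n => ?_) γ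
    by_cases hi : ∃ R, R ∉ A ∧ e ⟨2, R⟩ = i
    · obtain ⟨Q, hQ, rfl⟩ := hi
      obtain ⟨π, hπ1, hπ2⟩ := h1 R.1 R.2
      have hp : ∀ m, x.2.1 (FreeGroup.of R) m = π m := fun m => by
        rw [← ha R, hπ1]
      rw [hp, hp, Bool.eq_iff_iff, ← hr Q hQ, ← hr Q hQ]
      exact hπ2 Q hQ m n
    · rw [hx.bin i hi, hx.bin i hi]

/-- **Theorem.** (1) Vaught's conjecture, perfect-set form, holds for every first-order theory `T`
in a countable relational language with symbols of arity at most two if, for some set `A` of binary
symbols, in every model of `T` on `ℕ` the symbols in `A` are automorphisms for the other binary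
symbols, and all finite subsets with at least three elements are decomposable for the other binary
symbols. (2) The full conjecture is equivalent to its restriction to the complete theories of dense
linear orders without endpoints with one involution (without fixed points, exchanging an initial
segment with its complement), which need not be an automorphism. -/
theorem result :
    (∀ L : FirstOrder.Language.{0, 0}, Countable L.Symbols → L.IsRelational →
      (∀ n, L.Relations n → n ≤ 2) → ∀ (A : Set (L.Relations 2)) (T : L.Theory),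
        (∀ S : L.Structure ℕ, @FirstOrder.Language.Theory.Model L ℕ S T →
          Automorphisms A S ∧ Decomposable A S) → Dichotomy L T) ∧
    (FullConjecture ↔ ∀ T : L2.Theory, T.IsComplete →
      (∀ S : L2.Structure ℕ, @FirstOrder.Language.Theory.Model L2 ℕ S T →
        OrderWithInvolution (Rel S R2.fst) (Rel S R2.snd)) → Dichotomy L2 T) := by
  refine ⟨fun L hL hR har A T hT => ?_,
    ⟨fun h T _ _ => h L2 Pool.Agent.TH686.FO.countable_L2s T, fun h L hL T => ?_⟩⟩
  · have hc : Countable (Σ n, L.Relations n) := by
      have hL' : Countable ((Σ n, L.Functions n) ⊕ Σ n, L.Relations n) := hL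
      exact (Sum.inr_injective (α := Σ n, L.Functions n) (β := Σ n, L.Relations n)).countable
    have hcA : Countable A := by
      have : Countable (L.Relations 2) :=
        (sigma_mk_injective (β := L.Relations) (i := 2)).countable
      exact Subtype.countable
    refine (Pool.Agent.W889.FO.vaughtF_iff L T).2 ?_
    refine Pool.Agent.Y560.TH.FO.fo_of A har T (fun S hS R hR => ?_) (fun e he => ?_)
    · obtain ⟨π, hπ, -⟩ := (hT S hS).1 R hR
      refine ⟨π, fun t => ?_⟩
      have ht : t = ![t 0, t 1] := by
        funext i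
        fin_cases i
        · rfl
        · rfl
      rw [← hπ (t 0) (t 1)]
      show _ ↔ @FirstOrder.Language.Structure.RelMap L ℕ S 2 R ![t 0, t 1]
      rw [← ht]
    · refine Pool.Agent.Y576.TH.t_TD (fun Δ _ _ => Pool.Agent.Y560.TF.out Δ)
        Pool.Agent.Y259.TH.t_TDA Pool.Agent.Y641.TH.t_TDB (FreeGroup A)
        (Pool.Agent.Y560.TH.FO.BT A e T) (Pool.Agent.Y560.TH.FO.bt_meas A e T)
        (fun x hx => ?_) (Pool.Agent.Y560.TH.FO.bt_inv A e T)
      exact hd_of hx.1 (hT _ hx.2).1 (hT _ hx.2).2
  · exact Pool.Agent.TH686.DO.full_inv (fun T' hT' hS => h T' hT' fun S hm =>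
      inv_iff.2 (hS S hm)) L hL T

end Pool.Agent.Results.MP_5df2c5_lc.DecomposableAutomorphisms
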