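import Pool.Agent.Y558.C2.Fin
import Pool.Agent.Y558.C3.Red
import Pool.Agent.H834V.Adapt

set_option autoImplicit false

/-!
Vaught's conjecture (perfect-set form) for first-order theories, and the number of variables. The
conjecture holds for the theories axiomatised with two variables and counting quantifiers; for the
theories axiomatised with three variables, even without counting quantifiers and in languages
with unary and binary relation symbols only, it is equivalent to the full conjecture.
-/

namespace Pool.Agent.Results.MP_5df2c5_lc.NumberOfVariables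

open FirstOrder Set Pool.Agent.H834V
open Pool.Agent.H565R2.FO2 (Interp Code toI ofI toI_ofI Iso pick)
open Pool.Agent.H565R2.CO (C2 Rl Md)
open Pool.Agent.H565R2.LO2 (PerfK)
open Pool.Agent.Y558.C2 (FC tr fo cj Rl_cj exists_gd main)

/-- Vaught's conjecture, perfect-set form, for the theory `T` in the language `L` (the body of the
frozen statement): the models with universe `ℕ` fall into countably many isomorphism classes, or
some continuous family of models, indexed by the Cantor space, consists of pairwise
non-isomorphic models. -/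
def Dichotomy (L : FirstOrder.Language.{0, 0}) (T : L.Theory) : Prop :=
  (∃ g : ℕ → L.Structure ℕ, ∀ S : L.Structure ℕ,
      @FirstOrder.Language.Theory.Model L ℕ S T →
        ∃ n : ℕ, Nonempty (@FirstOrder.Language.Equiv L ℕ ℕ S (g n))) ∨
  (∃ f : (ℕ → Bool) → L.Structure ℕ,
      (∀ x : ℕ → Bool, @FirstOrder.Language.Theory.Model L ℕ (f x) T) ∧
      (∀ x y : ℕ → Bool,
          Nonempty (@FirstOrder.Language.Equiv L ℕ ℕ (f x) (f y)) → x = y) ∧
      (∀ (n : ℕ) (R : L.Relations n) (a : Fin n → ℕ),
          IsClopen {x : ℕ → Bool | @FirstOrder.Language.Structure.RelMap L ℕ (f x) n R a}) ∧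
      (∀ (n : ℕ) (F : L.Functions n) (a : Fin n → ℕ) (b : ℕ),
          IsOpen {x : ℕ → Bool | @FirstOrder.Language.Structure.funMap L ℕ (f x) n F a = b}))

/-- Vaught's conjecture for all first-order theories in all countable languages (the frozen
statement). -/
def FullConjecture : Prop :=
  ∀ L : FirstOrder.Language.{0, 0}, Countable L.Symbols → ∀ T : L.Theory, Dichotomy L T

/-- First-order formulas with `k` variables and counting quantifiers, in the relational language
`L`: `ex i n φ` says that at least `n` values of the variable `i` satisfy `φ`. -/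
inductive Formula (k : ℕ) (L : FirstOrder.Language.{0, 0}) : Type
  | eq : Fin k → Fin k → Formula k L
  | rel : {n : ℕ} → L.Relations n → (Fin n → Fin k) → Formula k L
  | neg : Formula k L → Formula k L
  | and : Formula k L → Formula k L → Formula k L
  | ex : Fin k → ℕ → Formula k L → Formula k L

/-- There are no counting quantifiers, only ordinary existential quantifiers. -/
def Plain {k : ℕ} {L : FirstOrder.Language.{0, 0}} : Formula k L → Prop
  | .eq _ _ => True
  | .rel _ _ => True
  | .neg φ => Plain φ
  | .and φ ψ => Plain φ ∧ Plain ψ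
  | .ex _ n φ => n = 1 ∧ Plain φ

/-- Satisfaction of a formula under an assignment. -/
def Sat {k : ℕ} {L : FirstOrder.Language.{0, 0}} (S : L.Structure ℕ) :
    Formula k L → (Fin k → ℕ) → Prop
  | .eq i j, v => v i = v j
  | .rel R t, v => @FirstOrder.Language.Structure.RelMap L ℕ S _ R fun m => v (t m)
  | .neg φ, v => ¬ Sat S φ v
  | .and φ ψ, v => Sat S φ v ∧ Sat S ψ v
  | .ex i n φ, v => (n : ℕ∞) ≤ Set.encard {z : ℕ | Sat S φ (Function.update v i z)}

/-- The models of `T` on `ℕ` are the structures in which the universal closures of some set of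
formulas with `k` variables with the property `P` are true. -/
def Axiomatised (k : ℕ) {L : FirstOrder.Language.{0, 0}} (P : Formula k L → Prop)
    (T : L.Theory) : Prop :=
  ∃ Ψ : Set (Formula k L), (∀ ψ ∈ Ψ, P ψ) ∧ ∀ S : L.Structure ℕ,
    @FirstOrder.Language.Theory.Model L ℕ S T ↔ ∀ ψ ∈ Ψ, ∀ v : Fin k → ℕ, Sat S ψ v

/-- translation -/
def two {L : FirstOrder.Language.{0, 0}} : Formula 2 L → FC L
  | .eq i j => .eq (decide (i = 1)) (decide (j = 1))
  | .rel R t => .rel R fun m => decide (t m = 1)
  | .neg φ => .neg (two φ)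
  | .and φ ψ => .and (two φ) (two ψ)
  | .ex i n φ => .ex (decide (i = 1)) n (two φ)

theorem sat_two {L : FirstOrder.Language.{0, 0}} (S : L.Structure ℕ) (φ : Formula 2 L) :
    ∀ v : Fin 2 → ℕ, Sat S φ v ↔ Rl (rel S) (tr (two φ)) (v 0) (v 1) := by
  have hp : ∀ (v : Fin 2 → ℕ) (i : Fin 2), pick (v 0) (v 1) (decide (i = 1)) = v i := by
    intro v i
    fin_cases i <;> rfl
  induction φ with
  | eq i j =>
    intro v
    show v i = v j ↔ pick (v 0) (v 1) (decide (i = 1)) = pick (v 0) (v 1) (decide (j = 1))
    rw [hp, hp]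
  | rel R t =>
    intro v
    show @FirstOrder.Language.Structure.RelMap L ℕ S _ R (fun k => v (t k)) ↔
      @FirstOrder.Language.Structure.RelMap L ℕ S _ R
        (fun k => pick (v 0) (v 1) (decide (t k = 1)))
    simp only [hp]
  | neg φ ih =>
    intro v
    exact not_congr (ih v)
  | and φ ψ ih1 ih2 =>
    intro v
    show Sat S φ v ∧ Sat S ψ v ↔ Rl (rel S) (cj (tr (two φ)) (tr (two ψ))) (v 0) (v 1)
    rw [Rl_cj]
    exact and_congr (ih1 v) (ih2 v)
  | ex i n φ ih =>
    intro v
    have h1 : {z : ℕ | Sat S φ (Function.update v i z)} =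
        {z : ℕ | Rl (rel S) (tr (two φ)) (Function.update v i z 0)
          (Function.update v i z 1)} := by
      ext z
      exact ih _
    show (n : ℕ∞) ≤ Set.encard {z : ℕ | Sat S φ (Function.update v i z)} ↔ _
    rw [h1]
    have hi : i = 0 ∨ i = 1 := by
      fin_cases i
      · exact Or.inl rfl
      · exact Or.inr rfl
    rcases hi with rfl | rfl
    · exact Iff.rfl
    · exact Iff.rfl

/-- translation -/
def three {k : ℕ} {L : FirstOrder.Language.{0, 0}} : Pool.Agent.Y558.C3.CF k L → Formula k L
  | .eq i j => .eq i j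
  | .rel R t => .rel R t
  | .neg φ => .neg (three φ)
  | .and φ ψ => .and (three φ) (three ψ)
  | .ex i n φ => .ex i n (three φ)

theorem sat_three {k : ℕ} {L : FirstOrder.Language.{0, 0}} (S : L.Structure ℕ)
    (φ : Pool.Agent.Y558.C3.CF k L) :
    ∀ v : Fin k → ℕ, Pool.Agent.Y558.C3.Sat S φ v ↔ Sat S (three φ) v := by
  induction φ with
  | eq i j => exact fun v => Iff.rfl
  | rel R t => exact fun v => Iff.rfl
  | neg φ ih => exact fun v => not_congr (ih v)
  | and φ ψ ih1 ih2 => exact fun v => and_congr (ih1 v) (ih2 v)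
  | ex i n φ ih =>
    intro v
    have h1 : {z : ℕ | Pool.Agent.Y558.C3.Sat S φ (Function.update v i z)} =
        {z : ℕ | Sat S (three φ) (Function.update v i z)} := by
      ext z
      exact ih _
    show (n : ℕ∞) ≤ Set.encard {z : ℕ | Pool.Agent.Y558.C3.Sat S φ (Function.update v i z)} ↔ _
    rw [h1]
    exact Iff.rfl

theorem plain_three {k : ℕ} {L : FirstOrder.Language.{0, 0}}
    (φ : Pool.Agent.Y558.C3.CF k L) (h : φ.Plain) : Plain (three φ) := by
  induction φ with
  | eq i j => exact trivial
  | rel R t => exact trivial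
  | neg φ ih => exact ih h
  | and φ ψ ih1 ih2 => exact ⟨ih1 h.1, ih2 h.2⟩
  | ex i n φ ih => exact ⟨h.1, ih h.2⟩

/-- Vaught's conjecture holds for every first-order theory, in every countable relational
language, that is axiomatised with two variables and counting quantifiers. The full conjecture is
equivalent to the conjecture for the theories which are axiomatised with three variables without
counting quantifiers, in countable languages with unary and binary relation symbols only. -/
theorem result :
    (∀ L : FirstOrder.Language.{0, 0}, Countable L.Symbols → L.IsRelational → ∀ T : L.Theory,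
      Axiomatised 2 (fun _ => True) T → Dichotomy L T) ∧
    (FullConjecture ↔ ∀ L : FirstOrder.Language.{0, 0}, Countable L.Symbols → L.IsRelational →
      (∀ n, L.Relations n → n = 1 ∨ n = 2) → ∀ T : L.Theory, Axiomatised 3 Plain T →
        Dichotomy L T) := by
  refine ⟨fun L hL hR T hT => ?_, fun h L hL _ _ T _ => h L hL T, fun h L hL T => ?_⟩
  · classical
    have hRc : ∀ n, Countable (L.Relations n) := countable_relations hL
    obtain ⟨Ψ, -, hΨ⟩ := hT
    obtain ⟨Φ, hΦ, hR2⟩ := exists_gd ((fun ψ => tr (two ψ)) '' Ψ) (by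
      rintro _ ⟨ψ, -, rfl⟩
      exact ⟨two ψ, rfl⟩)
    have hK : ∀ S : L.Structure ℕ, code S ∈ {c : Code L | toI c ∈ Md Φ} ↔
        @FirstOrder.Language.Theory.Model L ℕ S T := by
      intro S
      rw [hΨ S]
      show toI (code S) ∈ Md Φ ↔ _
      rw [show toI (code S) = rel S from toI_ofI _]
      constructor
      · intro h ψ hψ v
        rw [sat_two]
        exact (hR2 (rel S) _ _).1 (h _ _) _ ⟨ψ, hψ, rfl⟩
      · intro h x y
        refine (hR2 (rel S) x y).2 ?_
        rintro _ ⟨ψ, hψ, rfl⟩
        exact (sat_two S ψ ![x, y]).1 (h ψ hψ _)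
    refine (Pool.Agent.W889.FO.vaughtF_iff L T).2 ?_
    rcases adapt hR {c : Code L | toI c ∈ Md Φ} (main hΦ) with ⟨g, hg⟩ | ⟨f, hf1, hf2, hf3⟩
    · left
      exact ⟨g, fun S h => hg S ((hK S).2 h)⟩
    · right
      exact ⟨f, fun x => (hK (f x)).1 (hf1 x), hf2, hf3⟩
  · refine Pool.Agent.W889.FO.St0.reduce L (fun T1 => ?_) T
    have := Pool.Agent.W889.FO.St0.countable_LF (L := L)
    refine Pool.Agent.Y558.C3.red3 (fun T' hT' => ?_) T1
    refine (Pool.Agent.W889.FO.vaughtF_iff _ T').1 (h _ Pool.Agent.Y558.C3.countable_LE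
      inferInstance Pool.Agent.Y558.C3.arity_LE T' ?_)
    obtain ⟨Ψ, h1, h2⟩ := hT'
    refine ⟨three '' Ψ, ?_, fun S => ?_⟩
    · rintro _ ⟨ψ, hψ, rfl⟩
      exact plain_three ψ (h1 ψ hψ)
    · rw [h2]
      constructor
      · rintro h3 _ ⟨ψ, hψ, rfl⟩ v
        exact (sat_three S ψ v).1 (h3 ψ hψ v)
      · intro h3 ψ hψ v
        exact (sat_three S ψ v).2 (h3 _ ⟨ψ, hψ, rfl⟩ v)

end Pool.Agent.Results.MP_5df2c5_lc.NumberOfVariables
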