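import Pool.Agent.Y558.EC.Uni

set_option autoImplicit false

/-!
# Vaught's conjecture for permutation graphs and interval graphs

The countable-or-perfect dichotomy for the isomorphism types of binary structures with unary
predicates all of whose infinite prime quotients are permutation graphs or partial orders of
dimension two of finite cochromatic number, interval orders of finite nesting depth, their
comparability and incomparability graphs, or locally transitive tournaments.
-/

namespace Pool.Agent.Results.MP_5df2c5_lc.PermutationAndIntervalGraphs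

open Pool.Agent.Y558.EC

/-- Structures on `ℕ`: a binary relation `x.1` and unary predicates `x.2 0, x.2 1, ...`. -/
abbrev Structures : Type := (ℕ → ℕ → Bool) × (ℕ → ℕ → Bool)

/-- `σ` is an isomorphism from `x` to `y`. -/
def IsIso (σ : Equiv.Perm ℕ) (x y : Structures) : Prop :=
  (∀ m n, y.1 (σ m) (σ n) = x.1 m n) ∧ ∀ i m, y.2 i (σ m) = x.2 i m

/-- `l` is a strict linear order of `ℕ`. -/
structure StrictLinear (l : ℕ → ℕ → Prop) : Prop where
  irrefl : ∀ a, ¬ l a a
  trans : ∀ a b c, l a b → l b c → l a c
  total : ∀ a b, a ≠ b → l a b ∨ l b a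

/-- For some colouring of the points with finitely many colours, the points of each colour are
pairwise related, or pairwise unrelated. -/
def FiniteCochromatic (Q : ℕ → ℕ → Bool) : Prop := ∃ (s : ℕ) (c : ℕ → Fin s), ∀ t,
  (∀ a b, a ≠ b → c a = t → c b = t → Q a b = true ∨ Q b a = true) ∨
  (∀ a b, c a = t → c b = t → Q a b = false)

/-- `Q` is the graph of the pairs which two linear orders `l`, `k` order differently (a permutation
graph), or the intersection of `l` and `k` (a partial order of dimension at most two), and its
cochromatic number is finite. -/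
def FromTwoOrders (Q : ℕ → ℕ → Bool) : Prop := ∃ l k : ℕ → ℕ → Prop,
  StrictLinear l ∧ StrictLinear k ∧
  ((∀ a b, Q a b = true ↔ (l a b ∧ k b a) ∨ (l b a ∧ k a b)) ∨
    (∀ a b, Q a b = true ↔ (l a b ∧ k a b))) ∧ FiniteCochromatic Q

/-- Interval orders (strict partial orders without the suborder `2 + 2`; by a theorem of Fishburn
these are the orders of intervals of a linear order). -/
structure IntervalOrder (P : ℕ → ℕ → Bool) : Prop where
  irrefl : ∀ a, P a a = false
  two : ∀ a b c d, P a b = true → P c d = true → P a d = true ∨ P c b = true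

/-- `a` is strictly inside `b`: some element is below `a` and not below `b`, and some element is
above `a` and not above `b`. -/
def Nested (P : ℕ → ℕ → Bool) (a b : ℕ) : Prop :=
  (∃ u, P u a = true ∧ P u b = false) ∧ ∃ v, P a v = true ∧ P b v = false

/-- For some colouring of the points with finitely many colours there are no nested points of the
same colour. -/
def FiniteNesting (P : ℕ → ℕ → Bool) : Prop :=
  ∃ (s : ℕ) (c : ℕ → Fin s), ∀ a b, c a = c b → ¬ Nested P a b

/-- `Q` is an interval order `P` with finite nesting, or its comparability graph, or its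
incomparability graph (an interval graph). -/
def FromIntervals (Q : ℕ → ℕ → Bool) : Prop := ∃ P : ℕ → ℕ → Bool,
  IntervalOrder P ∧ FiniteNesting P ∧
  ((∀ a b, Q a b = P a b) ∨ (∀ a b, Q a b = (P a b || P b a)) ∨
    (∀ a b, Q a b = (!P a b && !P b a && !decide (a = b))))

/-- Tournaments in which the relation is transitive on the set of the points dominated by `x` and
on the set of the points which dominate `x`, for each point `x`. -/
structure LocalTournament (T : ℕ → ℕ → Bool) : Prop where
  irrefl : ∀ a, T a a = false
  total : ∀ a b, a = b ∨ T a b = true ∨ T b a = true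
  asymm : ∀ a b, T a b = true → T b a = true → False
  out : ∀ x a b c, T x a = true → T x b = true → T x c = true → T a b = true → T b c = true →
    T a c = true
  inn : ∀ x a b c, T a x = true → T b x = true → T c x = true → T a b = true → T b c = true →
    T a c = true

/-- The three kinds. -/
def Geometric (Q : ℕ → ℕ → Bool) : Prop :=
  FromTwoOrders Q ∨ FromIntervals Q ∨ LocalTournament Q

/-- No point outside `X` distinguishes the points of `X`. -/
def IsModule (E : ℕ → ℕ → Bool) (X : Set ℕ) : Prop :=
  ∀ u, u ∉ X → ∀ v ∈ X, ∀ w ∈ X, E u v = E u w ∧ E v u = E w u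

/-- All modules with at least two points are the whole structure. -/
def IsPrime (E : ℕ → ℕ → Bool) : Prop := ∀ X : Set ℕ, IsModule E X → X.Subsingleton ∨ X = Set.univ

/-- The quotient with the representatives `e 0, e 1, ...`, without loops. -/
def quotient (E : ℕ → ℕ → Bool) (e : ℕ → ℕ) : ℕ → ℕ → Bool :=
  fun m n => if m = n then false else E (e m) (e n)

/-- Every infinite prime quotient of `E` is of one of the three kinds: if a module of `E` is the
union of disjoint modules `X 0, X 1, ...` with representatives `e 0, e 1, ...` and the quotient is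
prime, then the quotient is permutation-like, interval-like or a locally transitive tournament.
There is no restriction on finite quotients nor on quotients that are not prime. -/
def GeometricPrimeQuotients (E : ℕ → ℕ → Bool) : Prop := ∀ (X : ℕ → Set ℕ) (e : ℕ → ℕ),
  (∀ n, e n ∈ X n) → (∀ n, IsModule E (X n)) → (∀ m n, m ≠ n → Disjoint (X m) (X n)) →
  IsModule E (⋃ n, X n) → IsPrime (quotient E e) → Geometric (quotient E e)

theorem geo_iff (Q : ℕ → ℕ → Bool) : Geometric Q ↔ Geo Q := by
  have hne : ∀ (P : ℕ → ℕ → Bool) a b, Nested P a b ↔ Pool.Agent.Y558.EC.Ne P a b := by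
    intro P a b
    unfold Nested Pool.Agent.Y558.EC.Ne LL RR
    push Not
    simp only [Bool.not_eq_true]
  constructor
  · rintro (⟨l, k, hl, hk, h1, s, c, hc⟩ | ⟨P, hP, ⟨s, c, hc⟩, h1⟩ | h)
    · refine Or.inl ⟨l, k, ⟨hl.1, hl.2, hl.3⟩, ⟨hk.1, hk.2, hk.3⟩, h1, s, c, fun t => ?_⟩
      rcases hc t with h | h
      · exact Or.inl h
      · right
        intro a b ha hb hab
        rw [h a b ha hb, h b a hb ha] at hab
        rcases hab with hab | hab <;> exact absurd hab (by decide)
    · exact Or.inr (Or.inl ⟨P, ⟨hP.1, hP.2⟩,
        ⟨s, c, fun a b hab h => hc a b hab ((hne _ _ _).2 h)⟩, h1⟩)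
    · exact Or.inr (Or.inr ⟨h.1, h.2, h.3, h.4, h.5⟩)
  · rintro (⟨l, k, hl, hk, h1, s, c, hc⟩ | ⟨P, hP, ⟨s, c, hc⟩, h1⟩ | h)
    · refine Or.inl ⟨l, k, ⟨hl.1, hl.2, hl.3⟩, ⟨hk.1, hk.2, hk.3⟩, h1, s, c, fun t => ?_⟩
      rcases hc t with h | h
      · exact Or.inl h
      · right
        intro a b ha hb
        rw [← Bool.not_eq_true]
        exact fun hab => h a b ha hb (Or.inl hab)
    · exact Or.inr (Or.inl ⟨P, ⟨hP.1, hP.2⟩,
        ⟨s, c, fun a b hab h => hc a b hab ((hne _ _ _).1 h)⟩, h1⟩)
    · exact Or.inr (Or.inr ⟨h.1, h.2, h.3, h.4, h.5⟩)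

/-- Every isomorphism-invariant Borel class `B` of binary structures on `ℕ` with unary predicates,
all of whose infinite prime quotients are permutation-like or interval-like with finitely many
colours or locally transitive tournaments, contains countably many isomorphism types, or there is a
continuous map from the Cantor space into `B` with pairwise non-isomorphic values. The relations of
the three kinds have this property themselves. -/
theorem result :
    (∀ B : Set Structures, MeasurableSet B → (∀ x ∈ B, GeometricPrimeQuotients x.1) →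
      (∀ x ∈ B, ∀ (y : Structures) (σ : Equiv.Perm ℕ), IsIso σ x y → y ∈ B) →
      (∃ f : ℕ → Structures, ∀ x ∈ B, ∃ (n : ℕ) (σ : Equiv.Perm ℕ), IsIso σ (f n) x) ∨
      (∃ c : (ℕ → Bool) → Structures, Continuous c ∧ (∀ s, c s ∈ B) ∧
        ∀ s t, (∃ σ : Equiv.Perm ℕ, IsIso σ (c s) (c t)) → s = t)) ∧
    (∀ E : ℕ → ℕ → Bool, Geometric E → GeometricPrimeQuotients E) := by
  refine ⟨fun B hB hT hi => outG B hB (fun x hx X e h1 h2 h3 h4 h5 => ?_) hi,
    fun E hE X e h1 h2 h3 h4 h5 => ?_⟩
  · exact (geo_iff _).1 (hT x hx X e h1 h2 h3 h4 h5)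
  · exact (geo_iff _).2 (tame_of_geo ((geo_iff _).1 hE) X e h1 h2 h3 h4 h5)

end Pool.Agent.Results.MP_5df2c5_lc.PermutationAndIntervalGraphs
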